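import Pool.Agent.W247.ET.Stm

set_option autoImplicit false

/-! Project ET (helper247), part LOW. -/

open Finset MeasureTheory

namespace Pool.Agent.W930.ET.LOW

open Pool.Agent.W247.ET

theorem bi (k : ℕ) {s : ℝ} (hs : 0 < s) :
    IntegrableOn (fun y : ℝ => y ^ k * Real.exp (-(s * y))) (Set.Ioi 0) ∧
      ∫ y in Set.Ioi (0 : ℝ), y ^ k * Real.exp (-(s * y)) = (k.factorial : ℝ) / s ^ (k + 1) := by
  have hk : (0 : ℝ) < (k : ℝ) + 1 := by positivity
  constructor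
  · have h := integrableOn_rpow_mul_exp_neg_mul_rpow (p := 1) (s := (k : ℝ)) (b := s)
      (by linarith) one_pos hs
    refine h.congr_fun ?_ measurableSet_Ioi
    intro y _
    simp only [Real.rpow_one, Real.rpow_natCast, neg_mul]
  · have h := Real.integral_rpow_mul_exp_neg_mul_Ioi hk hs
    rw [Real.Gamma_nat_eq_factorial] at h
    have e : ∫ y in Set.Ioi (0 : ℝ), y ^ k * Real.exp (-(s * y)) =
        ∫ y in Set.Ioi (0 : ℝ), y ^ ((k : ℝ) + 1 - 1) * Real.exp (-(s * y)) := by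
      refine setIntegral_congr_fun measurableSet_Ioi ?_
      intro y _
      simp only [add_sub_cancel_right, Real.rpow_natCast]
    rw [e, h, one_div, Real.inv_rpow hs.le]
    have e2 : s ^ ((k : ℝ) + 1) = s ^ (k + 1) := by
      rw [← Real.rpow_natCast s (k + 1)]
      push_cast
      rfl
    rw [e2]
    field_simp

theorem cub {s : ℝ} (hs : 0 < s) (c3 c2 c1 c0 : ℝ) :
    IntegrableOn (fun y : ℝ => (c3 * y ^ 3 + c2 * y ^ 2 + c1 * y + c0) * Real.exp (-(s * y)))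
      (Set.Ioi 0) ∧
    ∫ y in Set.Ioi (0 : ℝ), (c3 * y ^ 3 + c2 * y ^ 2 + c1 * y + c0) * Real.exp (-(s * y)) =
      c3 * (6 / s ^ 4) + c2 * (2 / s ^ 3) + c1 * (1 / s ^ 2) + c0 * (1 / s) := by
  obtain ⟨i3, v3⟩ := bi 3 hs
  obtain ⟨i2, v2⟩ := bi 2 hs
  obtain ⟨i1, v1⟩ := bi 1 hs
  obtain ⟨i0, v0⟩ := bi 0 hs
  have j3 := i3.const_mul c3
  have j2 := i2.const_mul c2
  have j1 := i1.const_mul c1
  have j0 := i0.const_mul c0
  have e : (fun y : ℝ => (c3 * y ^ 3 + c2 * y ^ 2 + c1 * y + c0) * Real.exp (-(s * y))) =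
      fun y : ℝ => c3 * (y ^ 3 * Real.exp (-(s * y))) + c2 * (y ^ 2 * Real.exp (-(s * y))) +
        c1 * (y ^ 1 * Real.exp (-(s * y))) + c0 * (y ^ 0 * Real.exp (-(s * y))) := by
    funext y
    ring
  rw [e]
  have k2 : Integrable (fun y : ℝ => c3 * (y ^ 3 * Real.exp (-(s * y))) +
      c2 * (y ^ 2 * Real.exp (-(s * y)))) (volume.restrict (Set.Ioi 0)) := j3.add j2
  have k1 : Integrable (fun y : ℝ => c3 * (y ^ 3 * Real.exp (-(s * y))) +
      c2 * (y ^ 2 * Real.exp (-(s * y))) + c1 * (y ^ 1 * Real.exp (-(s * y))))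
      (volume.restrict (Set.Ioi 0)) := k2.add j1
  refine ⟨k1.add j0, ?_⟩
  rw [integral_add k1 j0, integral_add k2 j1, integral_add j3 j2,
    integral_const_mul, integral_const_mul, integral_const_mul, integral_const_mul, v3, v2, v1, v0]
  norm_num [Nat.factorial]

theorem polyInt {s : ℝ} (hs : 0 < s) (p : Polynomial ℝ) :
    IntegrableOn (fun y : ℝ => p.eval y * Real.exp (-(s * y))) (Set.Ioi 0) := by
  induction p using Polynomial.induction_on' with
  | add p q hp hq =>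
    have : (fun y : ℝ => (p + q).eval y * Real.exp (-(s * y))) =
        fun y : ℝ => p.eval y * Real.exp (-(s * y)) + q.eval y * Real.exp (-(s * y)) := by
      funext y
      rw [Polynomial.eval_add]
      ring
    rw [this]
    exact hp.add hq
  | monomial n a =>
    have : (fun y : ℝ => (Polynomial.monomial n a).eval y * Real.exp (-(s * y))) =
        fun y : ℝ => a * (y ^ n * Real.exp (-(s * y))) := by
      funext y
      rw [Polynomial.eval_monomial]
      ring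
    rw [this]
    exact (bi n hs).1.const_mul a

/-- the diagonal polynomial -/
noncomputable def dp (a y : ℝ) : ℝ := 8 * a ^ 3 * y ^ 3 + -(8 * a ^ 2) * y ^ 2 + 4 * a * y + 13 / 4

theorem G_eq (B : Finset ℕ) (y : ℝ) : G P2 B y 0 = ∑ a ∈ B, dp a y * Real.exp (-(2 * (a : ℝ) * y)) := by
  unfold G
  symm
  refine Finset.sum_bij (fun a _ => (a, a)) ?_ ?_ ?_ ?_
  · intro a ha
    simp [ha]
  · intro a _ b _ h
    exact (Prod.ext_iff.1 h).1
  · rintro ⟨a, b⟩ h
    rw [Finset.mem_filter, Finset.mem_product] at h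
    obtain ⟨⟨h1, h2⟩, h3⟩ := h
    have h4 : a = b := by
      simp only at h3
      omega
    subst h4
    exact ⟨a, h1, rfl⟩
  · intro a _
    simp only [dp, P2]
    congr 1
    · ring
    · congr 1
      ring

theorem main : LOW_stmt := by
  intro B N hB
  have hpos : ∀ a ∈ B, (0 : ℝ) < a := by
    intro a ha
    have := (Finset.mem_Icc.1 (hB ha)).1
    exact_mod_cast this
  set φ : ℝ → ℝ := fun y => ∑ a ∈ B, Real.exp (-(2 * (a : ℝ) * y)) with hφ
  set g : ℝ → ℝ := fun y => 2 * (37 / 8) * (G P2 B y 0 * φ y) - (37 / 8) ^ 2 * φ y ^ 2 with hg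
  -- integrability of `q ^ 2`
  have hq2 : IntegrableOn (fun y => G P2 B y 0 ^ 2) (Set.Ioi 0) := by
    have e : (fun y => G P2 B y 0 ^ 2) = fun y => ∑ a ∈ B, ∑ b ∈ B,
        ((Polynomial.C (8 * (a : ℝ) ^ 3) * Polynomial.X ^ 3 +
          Polynomial.C (-(8 * (a : ℝ) ^ 2)) * Polynomial.X ^ 2 +
          Polynomial.C (4 * (a : ℝ)) * Polynomial.X + Polynomial.C (13 / 4)) *
        (Polynomial.C (8 * (b : ℝ) ^ 3) * Polynomial.X ^ 3 +
          Polynomial.C (-(8 * (b : ℝ) ^ 2)) * Polynomial.X ^ 2 +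
          Polynomial.C (4 * (b : ℝ)) * Polynomial.X + Polynomial.C (13 / 4))).eval y *
        Real.exp (-(2 * ((a : ℝ) + b) * y)) := by
      funext y
      rw [G_eq, sq, Finset.sum_mul_sum]
      refine Finset.sum_congr rfl fun a _ => Finset.sum_congr rfl fun b _ => ?_
      have e2 : Real.exp (-(2 * ((a : ℝ) + b) * y)) =
          Real.exp (-(2 * (a : ℝ) * y)) * Real.exp (-(2 * (b : ℝ) * y)) := by
        rw [← Real.exp_add]
        congr 1
        ring
      rw [e2]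
      simp only [dp, Polynomial.eval_mul, Polynomial.eval_add, Polynomial.eval_C,
        Polynomial.eval_pow, Polynomial.eval_X]
      ring
    rw [e]
    refine integrable_finsetSum _ fun a ha => integrable_finsetSum _ fun b hb => ?_
    exact polyInt (by have := hpos a ha; have := hpos b hb; positivity) _
  -- the minorant
  have hge : g = fun y => ∑ a ∈ B, ∑ b ∈ B,
      ((37 / 4) * (8 * (a : ℝ) ^ 3) * y ^ 3 + (37 / 4) * (-(8 * (a : ℝ) ^ 2)) * y ^ 2 +
        (37 / 4) * (4 * a) * y + ((37 / 4) * (13 / 4) - (37 / 8) ^ 2)) *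
        Real.exp (-(2 * ((a : ℝ) + b) * y)) := by
    funext y
    simp only [hg, hφ]
    rw [G_eq, Finset.sum_mul_sum, sq (∑ a ∈ B, Real.exp (-(2 * (a : ℝ) * y))), Finset.sum_mul_sum,
      Finset.mul_sum, Finset.mul_sum, ← Finset.sum_sub_distrib]
    refine Finset.sum_congr rfl fun a _ => ?_
    rw [Finset.mul_sum, Finset.mul_sum, ← Finset.sum_sub_distrib]
    refine Finset.sum_congr rfl fun b _ => ?_
    have e2 : Real.exp (-(2 * ((a : ℝ) + b) * y)) =
        Real.exp (-(2 * (a : ℝ) * y)) * Real.exp (-(2 * (b : ℝ) * y)) := by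
      rw [← Real.exp_add]
      congr 1
      ring
    rw [e2]
    simp only [dp]
    ring
  have hgi : IntegrableOn g (Set.Ioi 0) := by
    rw [hge]
    refine integrable_finsetSum _ fun a ha => integrable_finsetSum _ fun b hb => ?_
    exact (cub (by have := hpos a ha; have := hpos b hb; positivity) _ _ _ _).1
  have hgv : ∫ y in Set.Ioi (0 : ℝ), g y = ∑ a ∈ B, ∑ b ∈ B,
      ((37 / 4) * (8 * (a : ℝ) ^ 3) * (6 / (2 * ((a : ℝ) + b)) ^ 4) +
        (37 / 4) * (-(8 * (a : ℝ) ^ 2)) * (2 / (2 * ((a : ℝ) + b)) ^ 3) +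
        (37 / 4) * (4 * a) * (1 / (2 * ((a : ℝ) + b)) ^ 2) +
        ((37 / 4) * (13 / 4) - (37 / 8) ^ 2) * (1 / (2 * ((a : ℝ) + b)))) := by
    rw [hge, integral_finsetSum _ (fun a ha => integrable_finsetSum _ fun b hb =>
      (cub (by have := hpos a ha; have := hpos b hb; positivity) _ _ _ _).1)]
    refine Finset.sum_congr rfl fun a ha => ?_
    rw [integral_finsetSum _ (fun b hb =>
      (cub (by have := hpos a ha; have := hpos b hb; positivity) _ _ _ _).1)]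
    refine Finset.sum_congr rfl fun b hb => ?_
    exact (cub (by have := hpos a ha; have := hpos b hb; positivity) _ _ _ _).2
  have hmono : ∫ y in Set.Ioi (0 : ℝ), g y ≤ ∫ y in Set.Ioi (0 : ℝ), G P2 B y 0 ^ 2 := by
    refine setIntegral_mono hgi hq2 ?_
    intro y
    simp only [hg]
    nlinarith [sq_nonneg (G P2 B y 0 - 37 / 8 * φ y)]
  refine le_trans (le_of_eq ?_) hmono
  rw [hgv]
  -- symmetrisation
  set c : ℕ → ℕ → ℝ := fun a b => ((37 / 4) * (8 * (a : ℝ) ^ 3) * (6 / (2 * ((a : ℝ) + b)) ^ 4) +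
        (37 / 4) * (-(8 * (a : ℝ) ^ 2)) * (2 / (2 * ((a : ℝ) + b)) ^ 3) +
        (37 / 4) * (4 * a) * (1 / (2 * ((a : ℝ) + b)) ^ 2) +
        ((37 / 4) * (13 / 4) - (37 / 8) ^ 2) * (1 / (2 * ((a : ℝ) + b)))) with hc
  have hsym : ∑ a ∈ B, ∑ b ∈ B, c a b = ∑ a ∈ B, ∑ b ∈ B, c b a := Finset.sum_comm
  have hpair : ∑ a ∈ B, ∑ b ∈ B, (c a b + c b a) = ∑ a ∈ B, ∑ b ∈ B,
      2 * (1369 / 128 * (1 / ((a : ℝ) + b)) -
        185 / 8 * ((a : ℝ) * b / ((a : ℝ) + b) ^ 3 - 1 / (8 * ((a : ℝ) + b)))) := by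
    refine Finset.sum_congr rfl fun a ha => Finset.sum_congr rfl fun b hb => ?_
    have h1 := hpos a ha
    have h2 := hpos b hb
    have h3 : (a : ℝ) + b ≠ 0 := by positivity
    have h4 : (b : ℝ) + a ≠ 0 := by positivity
    simp only [hc]
    rw [add_comm (b : ℝ) a]
    field_simp
    ring
  have hL : 1369 / 128 * ∑ p ∈ B ×ˢ B, 1 / ((p.1 : ℝ) + p.2) - 185 / 8 * VV B =
      ∑ a ∈ B, ∑ b ∈ B, (1369 / 128 * (1 / ((a : ℝ) + b)) -
        185 / 8 * ((a : ℝ) * b / ((a : ℝ) + b) ^ 3 - 1 / (8 * ((a : ℝ) + b)))) := by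
    unfold VV
    rw [Finset.mul_sum, Finset.mul_sum, ← Finset.sum_sub_distrib, Finset.sum_product]
  rw [hL]
  have e1 : ∑ a ∈ B, ∑ b ∈ B, (c a b + c b a) =
      ∑ a ∈ B, ∑ b ∈ B, c a b + ∑ a ∈ B, ∑ b ∈ B, c b a := by
    rw [← Finset.sum_add_distrib]
    exact Finset.sum_congr rfl fun a _ => Finset.sum_add_distrib
  have e2 : ∑ a ∈ B, ∑ b ∈ B, 2 * (1369 / 128 * (1 / ((a : ℝ) + b)) -
        185 / 8 * ((a : ℝ) * b / ((a : ℝ) + b) ^ 3 - 1 / (8 * ((a : ℝ) + b)))) =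
      2 * ∑ a ∈ B, ∑ b ∈ B, (1369 / 128 * (1 / ((a : ℝ) + b)) -
        185 / 8 * ((a : ℝ) * b / ((a : ℝ) + b) ^ 3 - 1 / (8 * ((a : ℝ) + b)))) := by
    rw [Finset.mul_sum]
    exact Finset.sum_congr rfl fun a _ => (Finset.mul_sum _ _ _).symm
  rw [e1, ← hsym, e2] at hpair
  change _ = ∑ a ∈ B, ∑ b ∈ B, c a b
  linarith

end Pool.Agent.W930.ET.LOW
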