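import Pool.Agent.W559.Et.Stm4

set_option autoImplicit false
set_option linter.unusedSectionVars false
set_option linter.unusedVariables false

open MvPolynomial AlgebraicGeometry CategoryTheory TensorProduct

universe u

namespace Pool.Agent.W930.ET

open Pool.Agent.W559.Et Pool.Agent.W559.Mg Pool.Agent.H920R2

theorem lc_eq {k L : Type u} [Field k] [Field L] [Algebra k L] (C : Subalgebra k L) (f : L)
    (hf : f ∈ C) : lc C f hf = locL C f hf := by
  apply SetLike.ext
  intro y
  exact Iff.rfl

theorem perm : PermStm.{u} := by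
  classical
  intro k K L _ _ _ _ _ n e g hg hginj τ π hτ A hsm q hq hdq
  have hC : ∀ c ∈ TT e (fun _ => A), τ c ∈ TT e (fun _ => A) := by
    have h1 : TT e (fun _ => A) ≤ (TT e (fun _ => A)).comap τ := by
      refine TT_le e _ _ fun i x hx => ?_
      change τ (e i x) ∈ TT e (fun _ => A)
      rw [hτ]
      exact e_mem_TT e (fun _ => A) (π i) hx
    exact fun c hc => h1 hc
  -- the components of the point
  let P : Fin n → Ideal A := fun i => q.comap (TTj e (fun _ => A) i)
  have hPp : ∀ i, (P i).IsPrime := fun i => hq.comap _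
  have hPπ : ∀ i, P (π i) = P i := by
    intro i
    ext a
    change TTj e (fun _ => A) (π i) a ∈ q ↔ TTj e (fun _ => A) i a ∈ q
    have h1 := hdq _ (e_mem_TT e (fun _ => A) i a.2) ((TT e fun _ => A).sub_mem
      (hC _ (e_mem_TT e (fun _ => A) i a.2)) (e_mem_TT e (fun _ => A) i a.2))
    have h2 : TTj e (fun _ => A) (π i) a = TTj e (fun _ => A) i a +
        ⟨τ (e i (a : K)) - e i (a : K), (TT e fun _ => A).sub_mem
          (hC _ (e_mem_TT e (fun _ => A) i a.2)) (e_mem_TT e (fun _ => A) i a.2)⟩ := by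
      apply Subtype.ext
      change e (π i) (a : K) = e i (a : K) + (τ (e i (a : K)) - e i (a : K))
      rw [hτ]
      ring
    rw [h2]
    constructor
    · intro h
      have := q.sub_mem h h1
      rwa [add_sub_cancel_right] at this
    · intro h
      exact q.add_mem h h1
  have hch : ∀ P : Ideal A, ∃ (f : K) (hf : f ∈ A) (m : ℕ) (x : Fin m → locL A f hf),
      P.IsPrime → (⟨f, hf⟩ : A) ∉ P ∧
        ((aeval x : MvPolynomial (Fin m) k →ₐ[k] locL A f hf).toRingHom).Etale := by
    intro P
    by_cases hP : P.IsPrime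
    · obtain ⟨f, hf, h1, m, x, h2⟩ := exists_etale_locL A hsm P hP
      exact ⟨f, hf, m, x, fun _ => ⟨h1, h2⟩⟩
    · exact ⟨1, A.one_mem, 0, Fin.elim0, fun h => absurd h hP⟩
  choose f hf m x hx using hch
  let f' : Fin n → K := fun i => f (P i)
  have hf' : ∀ i, f' i ∈ A := fun i => hf (P i)
  have hf'q : ∀ i, TTj e (fun _ => A) i ⟨f' i, hf' i⟩ ∉ q := fun i => (hx (P i) (hPp i)).1
  have hf'0 : ∀ i, f' i ≠ 0 := by
    intro i h
    apply hf'q i
    have h1 : (⟨f' i, hf' i⟩ : A) = 0 := Subtype.ext h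
    rw [h1, map_zero]
    exact q.zero_mem
  have hF : ∏ i, e i (f' i) ∈ TT e fun _ => A :=
    Subalgebra.prod_mem _ fun i _ => e_mem_TT e (fun _ => A) i (hf' i)
  let B := TT e fun i => locL A (f' i) (hf' i)
  have hB : lc (TT e fun _ => A) (∏ i, e i (f' i)) hF = B := by
    rw [lc_eq]
    exact locL_TT e (fun _ => A) f' hf' hf'0 hF
  -- the coordinates
  let κ : Fin n → Type := fun i => Fin (m (P i))
  let y : ∀ i, κ i → locL A (f' i) (hf' i) := fun i => x (P i)
  have hy : ∀ i, ((aeval (y i) : MvPolynomial (κ i) k →ₐ[k]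
      locL A (f' i) (hf' i)).toRingHom).Etale := fun i => (hx (P i) (hPp i)).2
  have hjB := isCoprod_TT e hg hginj fun i => locL A (f' i) (hf' i)
  have hft : ∀ i, Algebra.FiniteType k (locL A (f' i) (hf' i)) := fun i =>
    finiteType_locL A inferInstance _ _ (hf'0 i)
  have het := coprod_etale' hjB hft y hy
  let z : (Σ i, κ i) → B := fun c => TTj e (fun i => locL A (f' i) (hf' i)) c.1 (y c.1 c.2)
  have hz : ∀ c, (z c : L) = e c.1 (x (P c.1) c.2 : K) := fun c => rfl
  -- the permutation of the coordinates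
  have hxc : ∀ (P P' : Ideal A) (h : P = P') (c : Fin (m P)),
      (x P c : K) = x P' (Fin.cast (congrArg m h) c) := by
    rintro P _ rfl c
    rfl
  have hsig : ∀ c c' : (Σ i, κ i), c.1 = c'.1 → (c.2 : ℕ) = (c'.2 : ℕ) → c = c' := by
    rintro ⟨i, a⟩ ⟨i', a'⟩ h1 h2
    obtain rfl : i = i' := h1
    have : a = a' := Fin.ext h2
    rw [this]
  have hPπ' : ∀ i, P (π.symm i) = P i := by
    intro i
    have h := hPπ (π.symm i)
    rw [π.apply_symm_apply] at h
    exact h.symm
  let ε : Equiv.Perm (Σ i, κ i) :=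
    { toFun := fun c => ⟨π c.1, Fin.cast (congrArg m (hPπ c.1).symm) c.2⟩
      invFun := fun c => ⟨π.symm c.1, Fin.cast (congrArg m (hPπ' c.1).symm) c.2⟩
      left_inv := fun c => hsig _ _ (π.symm_apply_apply c.1) rfl
      right_inv := fun c => hsig _ _ (π.apply_symm_apply c.1) rfl }
  have hτz : ∀ c, τ (z c : L) = z (ε c) := by
    intro c
    rw [hz, hz, hτ]
    change e (π c.1) (x (P c.1) c.2 : K) = e (π c.1) (x (P (π c.1)) _ : K)
    rw [hxc (P c.1) (P (π c.1)) (hPπ c.1).symm c.2]
    rfl
  refine ⟨∏ i, e i (f' i), hF, ?_, ?_, ?_⟩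
  · have h1 : (⟨∏ i, e i (f' i), hF⟩ : TT e fun _ => A) =
        ∏ i, TTj e (fun _ => A) i ⟨f' i, hf' i⟩ := by
      apply Subtype.ext
      change ∏ i, e i (f' i) = ((TT e fun _ => A).val) (∏ i, TTj e (fun _ => A) i ⟨f' i, hf' i⟩)
      rw [map_prod]
      rfl
    rw [h1]
    intro h2
    obtain ⟨i, -, h3⟩ := (hq.prod_mem_iff).1 h2
    exact hf'q i h3
  · rw [map_prod]
    have h1 : ∀ i, τ (e i (f' i)) = e (π i) (f' (π i)) := by
      intro i
      rw [hτ]
      change e (π i) (f (P i)) = e (π i) (f (P (π i)))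
      rw [hPπ]
    rw [Finset.prod_congr rfl fun i _ => h1 i]
    exact Equiv.prod_comp π fun i => e i (f' i)
  · rw [hB]
    let E := Fintype.equivFin (Σ i, κ i)
    let ε' : Equiv.Perm (Fin (Fintype.card (Σ i, κ i))) := (E.symm.trans ε).trans E
    refine ⟨Fintype.card (Σ i, κ i), fun i => z (E.symm i), LinearMap.funLeft k k ε'.symm, ?_, ?_⟩
    · have h1 : (aeval (fun i => z (E.symm i)) :
          MvPolynomial (Fin (Fintype.card (Σ i, κ i))) k →ₐ[k] B).toRingHom =
          ((aeval z : MvPolynomial (Σ i, κ i) k →ₐ[k] B).toRingHom).comp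
            (MvPolynomial.renameEquiv k E.symm : _ →+* _) := by
        apply MvPolynomial.ringHom_ext
        · intro r
          change aeval _ (C r) = aeval z (rename E.symm (C r))
          rw [rename_C, aeval_C, aeval_C]
        · intro i
          change aeval _ (X i) = aeval z (rename E.symm (X i))
          rw [rename_X, aeval_X, aeval_X]
      rw [h1]
      refine RingHom.Etale.stableUnderComposition _ _ ?_ het
      exact RingHom.Etale.of_bijective (MvPolynomial.renameEquiv k E.symm).bijective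
    · intro v
      rw [map_sum]
      have h1 : ∀ i, τ (v i • (z (E.symm i) : L)) = v i • (z (E.symm (ε' i)) : L) := by
        intro i
        rw [map_smul, hτz]
        change _ = v i • (z (E.symm (E (ε (E.symm i)))) : L)
        rw [E.symm_apply_apply]
      rw [Finset.sum_congr rfl fun i _ => h1 i]
      rw [← Equiv.sum_comp ε' fun i => (LinearMap.funLeft k k ε'.symm) v i • (z (E.symm i) : L)]
      refine Finset.sum_congr rfl fun i _ => ?_
      rw [LinearMap.funLeft_apply, Equiv.symm_apply_apply]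

end Pool.Agent.W930.ET
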